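import Pool.Agent.helper74.MQ.Spec

/-! # `WSC`: pigeonhole for the scales -/

set_option autoImplicit false

open Complex Metric Set Filter Topology MeasureTheory MPS

noncomputable section

namespace MQ

theorem WSC_val (d : ℝ) (m : ℤ) (h1 : -(2 * Real.pi) < d) (h2 : d < 2 * Real.pi)
    (h : |d - m * (2 * Real.pi)| ≤ 1) :
    |d - m * (2 * Real.pi)| = min |d| (2 * Real.pi - |d|) := by
  have hpi := Real.pi_gt_three
  have hcases : m = 0 ∨ m = 1 ∨ m = -1 ∨ 2 ≤ m ∨ m ≤ -2 := by omega
  rcases hcases with rfl | rfl | rfl | hm | hm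
  · rw [Int.cast_zero, zero_mul, sub_zero] at h ⊢
    rw [min_eq_left (by linarith)]
  · rw [Int.cast_one, one_mul] at h ⊢
    have h3 := (abs_le.1 h).1
    have h4 : 0 < d := by linarith
    rw [abs_of_pos h4, min_eq_right (by linarith), abs_of_neg (by linarith)]
    ring
  · rw [Int.cast_neg, Int.cast_one, neg_mul, one_mul, sub_neg_eq_add] at h ⊢
    have h3 := (abs_le.1 h).2
    have h4 : d < 0 := by linarith
    rw [abs_of_neg h4, min_eq_right (by linarith), abs_of_pos (by linarith)]
    ring
  · exfalso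
    have h3 := (abs_le.1 h).1
    have h4 : (2 : ℝ) ≤ m := by exact_mod_cast hm
    nlinarith
  · exfalso
    have h3 := (abs_le.1 h).2
    have h4 : (m : ℝ) ≤ -2 := by exact_mod_cast hm
    nlinarith

theorem WSC : WSC_stmt := by
  classical
  intro F T M s₀ hF hy hM hs hs1
  obtain ⟨w, hw⟩ : ∃ w : Sym2 ℝ → ℝ, ∀ y y', w s(y, y') =
      min |y - y'| (2 * Real.pi - |y - y'|) :=
    ⟨Sym2.lift ⟨fun y y' => min |y - y'| (2 * Real.pi - |y - y'|),
      fun y y' => by simp only [abs_sub_comm y y']⟩, fun y y' => rfl⟩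
  obtain ⟨S, hS⟩ : ∃ S : Finset ℝ, S = F.image T ∪
      (F.offDiag.image Sym2.mk.uncurry).image w := ⟨_, rfl⟩
  have hcard : S.card ≤ 15 := by
    have h1 : (F.image T).card ≤ F.card := Finset.card_image_le
    have h2 : ((F.offDiag.image Sym2.mk.uncurry).image w).card ≤
      (F.offDiag.image Sym2.mk.uncurry).card := Finset.card_image_le
    rw [Sym2.card_image_offDiag] at h2
    have h3 : F.card.choose 2 ≤ Nat.choose 5 2 := Nat.choose_le_choose 2 hF
    have h4 : Nat.choose 5 2 = 10 := rfl
    have h5 := Finset.card_union_le (F.image T) ((F.offDiag.image Sym2.mk.uncurry).image w)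
    rw [hS]
    omega
  have hM0 : 0 < M := by linarith
  have hM1 : 1 ≤ M := by linarith
  have hpow : ∀ n : ℕ, s₀ / M ^ n ≤ 1 := fun n =>
    (div_le_one (pow_pos hM0 n)).2 (hs1.trans (one_le_pow₀ hM1))
  have hpi := Real.pi_gt_three
  by_contra hno
  have hex : ∀ t ∈ Finset.Icc (1 : ℕ) 16, ∃ x ∈ S, s₀ / M ^ (t + 1) < x ∧ x ≤ s₀ / M ^ t := by
    intro t ht
    by_contra hx
    push Not at hx
    apply hno
    refine ⟨t, ht, ?_, ?_⟩
    · intro y hyF
      by_contra hc
      push Not at hc
      have h1 := hx (T y) (by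
        rw [hS]
        exact Finset.mem_union_left _ (Finset.mem_image_of_mem _ hyF)) hc.1
      linarith [hc.2]
    · intro y hyF y' hyF' m
      by_contra hc
      push Not at hc
      obtain ⟨c1, c2⟩ := hc
      have hle1 : |y - y' - m * (2 * Real.pi)| ≤ 1 := c2.trans (hpow t)
      by_cases heq : y = y'
      · subst heq
        rw [sub_self, zero_sub, abs_neg, abs_mul, abs_of_pos (by positivity : 0 < 2 * Real.pi)]
          at c1 hle1
        by_cases hm : m = 0
        · subst hm
          rw [Int.cast_zero, abs_zero, zero_mul] at c1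
          have h1 : 0 < s₀ / M ^ (t + 1) := div_pos hs (pow_pos hM0 _)
          linarith
        · have h1 : (1 : ℝ) ≤ |(m : ℝ)| := by exact_mod_cast Int.one_le_abs hm
          nlinarith
      · have hmem : w s(y, y') ∈ S := by
          rw [hS]
          refine Finset.mem_union_right _ (Finset.mem_image_of_mem _ ?_)
          exact Finset.mem_image.2 ⟨(y, y'), Finset.mem_offDiag.2 ⟨hyF, hyF', heq⟩, rfl⟩
        have hy1 := hy y hyF
        have hy2 := hy y' hyF'
        have hval := WSC_val (y - y') m (by linarith [hy1.1, hy2.2]) (by linarith [hy1.2, hy2.1])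
          hle1
        rw [← hw y y'] at hval
        rw [hval] at c1 c2
        have h1 := hx _ hmem c1
        linarith
  choose! x hxS hx1 hx2 using hex
  have hinj : Set.InjOn x (Finset.Icc (1 : ℕ) 16) := by
    have key : ∀ t ∈ Finset.Icc (1 : ℕ) 16, ∀ t' ∈ Finset.Icc (1 : ℕ) 16, t < t' →
        x t ≠ x t' := by
      intro t ht t' ht' hlt heq
      have h1 := hx1 t ht
      have h2 := hx2 t' ht'
      have h3 : s₀ / M ^ t' ≤ s₀ / M ^ (t + 1) :=
        div_le_div_of_nonneg_left hs.le (pow_pos hM0 _) (pow_le_pow_right₀ hM1 hlt)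
      linarith
    intro t ht t' ht' heq
    rcases lt_trichotomy t t' with h | h | h
    · exact absurd heq (key t ht t' ht' h)
    · exact h
    · exact absurd heq.symm (key t' ht' t ht h)
  have hle := Finset.card_le_card_of_injOn x hxS hinj
  rw [Nat.card_Icc] at hle
  omega

end MQ
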